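import Pool.Agent.MP_c1891a_nt.G43.SpecA

/-
The lemma of Rosenlicht on logarithmic differentials.
-/

namespace Pool.Agent.MP_c1891a_nt.G43

open Finset Polynomial

section Res

variable {K Ω : Type} [Field K] [Field Ω] [Algebra K Ω]

/-- `x` is a rational function of `z`, regular at zero with value `c`. -/
def RosReg (z x : Ω) (c : K) : Prop :=
  ∃ p q : K[X], q.eval 0 ≠ 0 ∧ x * aeval z q = aeval z p ∧ p.eval 0 = c * q.eval 0

variable {z x y : Ω} {c d : K}

theorem rosPoly (z : Ω) (p : K[X]) : RosReg z (aeval z p) (p.eval 0) :=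
  ⟨p, 1, by simp, by simp, by simp⟩

theorem rosConst (z : Ω) (c : K) : RosReg z (algebraMap K Ω c) c := by
  simpa using rosPoly z (C c)

theorem rosAdd (hx : RosReg z x c) (hy : RosReg z y d) : RosReg z (x + y) (c + d) := by
  obtain ⟨p, q, h1, h2, h3⟩ := hx
  obtain ⟨r, s, k1, k2, k3⟩ := hy
  refine ⟨p * s + r * q, q * s, by simp [h1, k1], ?_, ?_⟩
  · simp only [map_add, map_mul, ← h2, ← k2]
    ring
  · simp only [eval_add, eval_mul, h3, k3]
    ring

theorem rosMul (hx : RosReg z x c) (hy : RosReg z y d) : RosReg z (x * y) (c * d) := by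
  obtain ⟨p, q, h1, h2, h3⟩ := hx
  obtain ⟨r, s, k1, k2, k3⟩ := hy
  refine ⟨p * r, q * s, by simp [h1, k1], ?_, ?_⟩
  · simp only [map_mul, ← h2, ← k2]
    ring
  · simp only [eval_mul, h3, k3]
    ring

theorem rosNe (hz : Transcendental K z) {p : K[X]} (hp : p ≠ 0) : aeval z p ≠ 0 :=
  fun h => hz ⟨p, hp, h⟩

theorem rosInv (hz : Transcendental K z) (hx : RosReg z x c) (hc : c ≠ 0) :
    RosReg z x⁻¹ c⁻¹ := by
  obtain ⟨p, q, h1, h2, h3⟩ := hx
  have hp : p.eval 0 ≠ 0 := by
    rw [h3]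
    exact mul_ne_zero hc h1
  have hp' : aeval z p ≠ 0 := rosNe hz fun h => hp (by simp [h])
  have hx0 : x ≠ 0 := fun h => hp' (by rw [← h2, h, zero_mul])
  refine ⟨q, p, hp, ?_, ?_⟩
  · rw [← h2]
    field_simp
  · rw [h3]
    field_simp

theorem rosUniq (hz : Transcendental K z) (hx : RosReg z x c) (hy : RosReg z x d) : c = d := by
  obtain ⟨p, q, h1, h2, h3⟩ := hx
  obtain ⟨r, s, k1, k2, k3⟩ := hy
  have e : p * s - r * q = 0 := by
    by_contra h
    refine rosNe hz h ?_
    simp only [map_sub, map_mul, ← h2, ← k2]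
    ring
  have e' := congrArg (eval 0) e
  simp only [eval_sub, eval_mul, h3, k3, eval_zero] at e'
  have : (c - d) * (q.eval 0 * s.eval 0) = 0 := by linear_combination e'
  exact sub_eq_zero.1 ((mul_eq_zero.1 this).resolve_right (mul_ne_zero h1 k1))

theorem rosSum {ι : Type} (s : Finset ι) (f : ι → Ω) (g : ι → K)
    (h : ∀ i ∈ s, RosReg z (f i) (g i)) : RosReg z (∑ i ∈ s, f i) (∑ i ∈ s, g i) := by
  classical
  induction s using Finset.induction_on with
  | empty => simpa using rosConst z (0 : K)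
  | insert a s ha ih =>
    rw [sum_insert ha, sum_insert ha]
    exact rosAdd (h a (by simp)) (ih fun i hi => h i (by simp [hi]))

theorem rosPow (z : Ω) (n : ℕ) : RosReg z (z ^ (n + 1)) (0 : K) := by
  simpa using rosPoly (K := K) z (X ^ (n + 1))

/-- the order at zero and the residue of the logarithmic derivative. -/
def RosOrd (δ : Derivation K Ω Ω) (z x : Ω) (i j : ℕ) : Prop :=
  ∃ (u : Ω) (c : K), c ≠ 0 ∧ RosReg z u c ∧ x * z ^ j = u * z ^ i ∧
    RosReg z (z * (δ x / x)) ((i : K) - j)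

theorem rosOrdPoly (hz : Transcendental K z) (δ : Derivation K Ω Ω) (hδ : δ z = 1) {p : K[X]}
    (hp : p ≠ 0) : ∃ i, RosOrd δ z (aeval z p) i 0 := by
  obtain ⟨q, h1, h2⟩ := exists_eq_pow_rootMultiplicity_mul_and_not_dvd p hp 0
  generalize p.rootMultiplicity 0 = i at h1
  have hq : q.eval 0 ≠ 0 := fun h => h2 (dvd_iff_isRoot.2 h)
  have hq' : aeval z q ≠ 0 := rosNe hz fun h => hq (by simp [h])
  have hz0 : z ≠ 0 := by simpa using rosNe hz (X_ne_zero (R := K))
  have e : aeval z p = aeval z q * z ^ i := by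
    rw [h1]
    simp [mul_comm]
  refine ⟨i, aeval z q, q.eval 0, hq, rosPoly z q, by simp [e], ?_⟩
  have a := rosAdd (rosConst z (i : K))
    (rosMul (rosPoly z (X * derivative q)) (rosInv hz (rosPoly z q) hq))
  have e1 : z * (δ (aeval z p) / aeval z p) =
      algebraMap K Ω (i : K) + aeval z (X * derivative q) * (aeval z q)⁻¹ := by
    rw [e, δ.leibniz, δ.leibniz_pow, δ.map_aeval, hδ]
    simp only [smul_eq_mul, mul_one, nsmul_eq_mul, map_natCast, map_mul, aeval_X]
    rcases i with _ | i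
    · simp [div_eq_mul_inv, mul_assoc]
    · simp only [Nat.add_sub_cancel]
      field_simp
      ring
  rw [e1]
  simpa using a

theorem rosOrdFrac (hz : Transcendental K z) (δ : Derivation K Ω Ω) (hδ : δ z = 1)
    (hx : ∃ r s : K[X], x = aeval z r / aeval z s) (h0 : x ≠ 0) : ∃ i j, RosOrd δ z x i j := by
  obtain ⟨r, s, rfl⟩ := hx
  have hr : aeval z r ≠ 0 := fun h => h0 (by simp [h])
  have hs : aeval z s ≠ 0 := fun h => h0 (by simp [h])
  obtain ⟨i, u, c, hc, a1, a2, a3⟩ := rosOrdPoly hz δ hδ (p := r) fun h => hr (by simp [h])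
  obtain ⟨j, v, d, hd, b1, b2, b3⟩ := rosOrdPoly hz δ hδ (p := s) fun h => hs (by simp [h])
  simp only [pow_zero, mul_one, Nat.cast_zero, sub_zero] at a2 b2 a3 b3
  have hv : v ≠ 0 := fun h => hs (by simp [b2, h])
  have hz0 : z ≠ 0 := by simpa using rosNe hz (X_ne_zero (R := K))
  refine ⟨i, j, u * v⁻¹, c * d⁻¹, by simp [hc, hd], rosMul a1 (rosInv hz b1 hd), ?_, ?_⟩
  · rw [a2, b2]
    field_simp
  · have a := rosAdd a3 (rosMul (rosConst z (-1 : K)) b3)
    have e : z * (δ (aeval z r / aeval z s) / (aeval z r / aeval z s)) =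
        z * (δ (aeval z r) / aeval z r) +
          algebraMap K Ω (-1) * (z * (δ (aeval z s) / aeval z s)) := by
      rw [δ.leibniz_div]
      simp only [smul_eq_mul, map_neg, map_one]
      field_simp
      ring
    rw [e]
    simpa [sub_eq_add_neg] using a

/-- a derivative has no residue. -/
theorem rosExact [CharZero K] (hz : Transcendental K z) (δ : Derivation K Ω Ω) (hδ : δ z = 1)
    (hx : ∃ r s : K[X], x = aeval z r / aeval z s) (h : RosReg z (z * δ x) c) : c = 0 := by
  by_cases h0 : x = 0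
  · refine rosUniq hz h ?_
    simpa [h0] using rosConst z (0 : K)
  obtain ⟨i, j, u, d, hd, a1, a2, a3⟩ := rosOrdFrac hz δ hδ hx h0
  have hz0 : z ≠ 0 := by simpa using rosNe hz (X_ne_zero (R := K))
  have b := rosMul a3 a1
  rcases lt_trichotomy i j with hij | rfl | hij
  · obtain ⟨n, rfl⟩ := Nat.exists_eq_add_of_lt hij
    have e : u = x * z ^ (n + 1) := by
      apply mul_right_cancel₀ (pow_ne_zero i hz0)
      rw [← a2]
      ring
    have e' : z * (δ x / x) * u = z ^ (n + 1) * (z * δ x) := by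
      rw [e]
      field_simp
    rw [e'] at b
    have := rosUniq hz b (rosMul (rosPow z n) h)
    rw [zero_mul] at this
    have h2 := (mul_eq_zero.1 this).resolve_right hd
    have h3 : ((n + 1 : ℕ) : K) = 0 := by
      push_cast at h2 ⊢
      linear_combination -h2
    exact absurd (Nat.cast_eq_zero.1 h3) (by omega)
  · have e : u = x := (mul_right_cancel₀ (pow_ne_zero i hz0) a2).symm
    have e' : z * (δ x / x) * u = z * δ x := by
      rw [e]
      field_simp
    rw [e'] at b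
    simpa using rosUniq hz h b
  · obtain ⟨n, rfl⟩ := Nat.exists_eq_add_of_lt hij
    have e : x = u * z ^ (n + 1) := by
      apply mul_right_cancel₀ (pow_ne_zero j hz0)
      rw [a2]
      ring
    have e' : z * (δ x / x) * u * z ^ (n + 1) = z * δ x := by
      rw [mul_assoc, ← e]
      field_simp
    have b' := rosMul b (rosPow z n)
    rw [e'] at b'
    simpa using rosUniq hz h b'

theorem rosDer [CharZero K] (h : SDerExt) (hz : Transcendental K z) :
    ∃ δ : Derivation K Ω Ω, δ z = 1 := by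
  let : Algebra K[X] Ω := (aeval z : K[X] →ₐ[K] Ω).toRingHom.toAlgebra
  have : IsScalarTower K K[X] Ω := IsScalarTower.of_algebraMap_eq fun c => by
    show _ = aeval z (algebraMap K K[X] c)
    simp
  obtain ⟨D, hD⟩ := h K K[X] Ω (transcendental_iff_injective.1 hz) (mkDerivation K (1 : Ω))
  refine ⟨D, ?_⟩
  have e : algebraMap K[X] Ω X = z := aeval_X z
  rw [← e, hD, mkDerivation_X]

theorem rosAlg [CharZero K] (δ : Derivation K Ω Ω) (hx : IsAlgebraic K x) : δ x = 0 := by
  have hs : (minpoly K x).Separable := (minpoly.irreducible hx.isIntegral).separable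
  have h1 := δ.map_aeval (minpoly K x) x
  rw [minpoly.aeval, map_zero, smul_eq_mul] at h1
  exact (mul_eq_zero.1 h1.symm).resolve_left (hs.aeval_derivative_ne_zero (minpoly.aeval K x))

theorem rosLog {ι : Type} (δ : Derivation K Ω Ω) (s : Finset ι) (f : ι → Ω)
    (hf : ∀ i, f i ≠ 0) : δ (∏ i ∈ s, f i) / ∏ i ∈ s, f i = ∑ i ∈ s, δ (f i) / f i := by
  classical
  induction s using Finset.induction_on with
  | empty => simp
  | insert a s ha ih =>
    have h1 : ∏ i ∈ s, f i ≠ 0 := prod_ne_zero_iff.2 fun i _ => hf i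
    have h2 := hf a
    rw [prod_insert ha, sum_insert ha, ← ih, δ.leibniz]
    simp only [smul_eq_mul]
    field_simp
    ring

end Res

section Desc

variable {C Ω ι : Type} [Field C] [Field Ω] [Algebra C Ω] [Fintype ι] {γ : ι → C} {y : ι → Ω}
  {a : Ω}

theorem rosConj (H : ∀ δ : Derivation C Ω Ω, ∑ k, γ k • (δ (y k) / y k) = δ a)
    (τ : Ω ≃ₐ[C] Ω) (δ : Derivation C Ω Ω) :
    ∑ k, γ k • (δ (τ (y k)) / τ (y k)) = δ (τ a) := by
  let D : Derivation C Ω Ω := Derivation.mk'
    (τ.symm.toLinearMap ∘ₗ δ.toLinearMap ∘ₗ τ.toLinearMap) fun u v => by simp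
  have h := congrArg τ (H D)
  simpa [D, map_sum] using h

theorem rosExt {F : Type} [Field F] [Algebra C F] [Algebra F Ω] [IsScalarTower C F Ω]
    {y : ι → F} {a : F} (H : ∀ δ : Derivation C F F, ∑ k, γ k • (δ (y k) / y k) = δ a)
    (δ : Derivation C Ω Ω) :
    ∑ k, γ k • (δ (algebraMap F Ω (y k)) / algebraMap F Ω (y k)) = δ (algebraMap F Ω a) := by
  rw [← sub_eq_zero, ← Module.forall_dual_apply_eq_zero_iff F]
  intro φ
  have h := H (φ.compDer (δ.compAlgebraMap F))
  rw [map_sub, map_sum, sub_eq_zero]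
  refine Eq.trans (sum_congr rfl fun k _ => ?_) h
  have e : δ (algebraMap F Ω (y k)) / algebraMap F Ω (y k) =
      (y k)⁻¹ • δ (algebraMap F Ω (y k)) := by
    rw [Algebra.smul_def, map_inv₀, div_eq_inv_mul]
  rw [LinearMap.map_smul_of_tower, e, map_smul, smul_eq_mul, ← div_eq_inv_mul]
  rfl

theorem rosDesc [CharZero C] [IsAlgClosed Ω] (L : IntermediateField C Ω)
    [Algebra.IsAlgebraic L Ω] (hy : ∀ k, y k ≠ 0)
    (H : ∀ δ : Derivation C Ω Ω, ∑ k, γ k • (δ (y k) / y k) = δ a) :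
    ∃ (n : ι → Ω) (A : Ω) (m : ℕ), (∀ k, n k ∈ L ∧ n k ≠ 0) ∧ A ∈ L ∧
      (∀ k, y k ∈ L → n k = y k ^ (m + 1)) ∧
      ∀ δ : Derivation C Ω Ω, ∑ k, γ k • (δ (n k) / n k) = δ A := by
  classical
  have : CharZero Ω := charZero_of_injective_algebraMap (algebraMap C Ω).injective
  have : IsAlgClosure L Ω := ⟨inferInstance, inferInstance⟩
  let E : IntermediateField L Ω := IntermediateField.adjoin L (insert a (Set.range y))
  have : Finite (insert a (Set.range y) : Set Ω) := ((Set.finite_range y).insert a).to_subtype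
  have : FiniteDimensional L E := IntermediateField.finiteDimensional_adjoin fun x _ =>
    (Algebra.IsAlgebraic.isAlgebraic x).isIntegral
  let y' : ι → E := fun k => ⟨y k, IntermediateField.subset_adjoin _ _ (by simp)⟩
  let a' : E := ⟨a, IntermediateField.subset_adjoin _ _ (by simp)⟩
  have hσ : ∀ (σ : E →ₐ[L] Ω) (δ : Derivation C Ω Ω),
      ∑ k, γ k • (δ (σ (y' k)) / σ (y' k)) = δ (σ a') := by
    intro σ δ
    let τ : Ω ≃ₐ[L] Ω := AlgEquiv.ofBijective (σ.liftNormal Ω)
      (Algebra.IsAlgebraic.algHom_bijective _)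
    have e : ∀ x : E, (τ.restrictScalars C) (x : Ω) = σ x := fun x => σ.liftNormal_commutes Ω x
    have := rosConj H (τ.restrictScalars C) δ
    simp only [← e]
    exact this
  have hne : ∀ (σ : E →ₐ[L] Ω) k, σ (y' k) ≠ 0 := fun σ k =>
    (map_ne_zero σ).2 fun h => hy k (congrArg Subtype.val h)
  have : Nonempty (E →ₐ[L] Ω) := ⟨E.val⟩
  obtain ⟨m, hm⟩ := Nat.exists_eq_succ_of_ne_zero (Fintype.card_ne_zero (α := E →ₐ[L] Ω))
  refine ⟨fun k => ∏ σ : E →ₐ[L] Ω, σ (y' k), ∑ σ : E →ₐ[L] Ω, σ a', m, fun k => ⟨?_, ?_⟩, ?_,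
    fun k hk => ?_, fun δ => ?_⟩
  · beta_reduce
    rw [← Algebra.norm_eq_prod_embeddings]
    exact Subtype.property _
  · exact prod_ne_zero_iff.2 fun σ _ => hne σ k
  · rw [← trace_eq_sum_embeddings]
    exact Subtype.property _
  · have : ∀ σ : E →ₐ[L] Ω, σ (y' k) = y k := fun σ => σ.commutes ⟨y k, hk⟩
    simp only [this, prod_const, card_univ, hm]
  · have e : ∀ k, δ (∏ σ : E →ₐ[L] Ω, σ (y' k)) / ∏ σ : E →ₐ[L] Ω, σ (y' k) =
        ∑ σ : E →ₐ[L] Ω, δ (σ (y' k)) / σ (y' k) := fun k => rosLog δ _ _ fun σ => hne σ k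
    simp only [e, smul_sum, map_sum]
    rw [sum_comm]
    exact sum_congr rfl fun σ _ => hσ σ δ

theorem rosClosed [CharZero C] [IsAlgClosed Ω] (h : SDerExt) (hγ : LinearIndependent ℚ γ)
    (hy : ∀ k, y k ≠ 0) (H : ∀ δ : Derivation C Ω Ω, ∑ k, γ k • (δ (y k) / y k) = δ a) (k₀ : ι) :
    IsAlgebraic C (y k₀) := by
  by_contra hz
  obtain ⟨t, ht, hb⟩ := exists_isTranscendenceBasis_superset (R := C) (s := {y k₀})
    ((algebraicIndependent_singleton_iff (⟨y k₀, rfl⟩ : ({y k₀} : Set Ω))).2 hz)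
  have hzt : y k₀ ∈ t := ht rfl
  let S : Set Ω := ((↑) : t → Ω) '' {⟨y k₀, hzt⟩}ᶜ
  let K : IntermediateField C Ω := IntermediateField.adjoin C S
  have : CharZero Ω := charZero_of_injective_algebraMap (algebraMap C Ω).injective
  have hK : Transcendental K (y k₀) := IntermediateField.transcendental_adjoin_iff.2
    (hb.1.transcendental_adjoin (i := ⟨y k₀, hzt⟩) (by simp))
  let L : IntermediateField C Ω := IntermediateField.adjoin C (Set.range ((↑) : t → Ω))
  have : Algebra.IsAlgebraic L Ω := hb.isAlgebraic_field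
  have hL : ∀ x ∈ L, ∃ r s : K[X], x = aeval (y k₀) r / aeval (y k₀) s := by
    intro x hx
    rw [← IntermediateField.mem_adjoin_simple_iff, ← IntermediateField.mem_restrictScalars C,
      IntermediateField.adjoin_adjoin_left]
    refine IntermediateField.adjoin.mono C _ _ ?_ hx
    rintro _ ⟨i, rfl⟩
    by_cases hi : i = ⟨y k₀, hzt⟩
    · exact Or.inr (by simp [hi])
    · exact Or.inl ⟨i, hi, rfl⟩
  obtain ⟨n, A, m, hn, hA, hm, H'⟩ := rosDesc L hy H
  obtain ⟨δ, hδ⟩ := rosDer h hK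
  choose i j hij using fun k => rosOrdFrac hK δ hδ (hL _ (hn k).1) (hn k).2
  choose u c hc hu he hr using hij
  have s := rosSum univ _ _ fun k _ => rosMul (rosConst (y k₀) (algebraMap C K (γ k))) (hr k)
  have e : ∑ k, algebraMap K Ω (algebraMap C K (γ k)) * (y k₀ * (δ (n k) / n k)) = y k₀ * δ A := by
    have := H' (δ.restrictScalars C)
    simp only [Derivation.restrictScalars_apply] at this
    rw [← this, mul_sum]
    refine sum_congr rfl fun k _ => ?_
    rw [← IsScalarTower.algebraMap_apply, Algebra.smul_def]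
    ring
  rw [e] at s
  have s0 := rosExact hK δ hδ (hL A hA) s
  have s1 : ∑ k, ((i k : ℚ) - j k) • γ k = 0 := by
    apply (algebraMap C K).injective
    rw [map_sum, map_zero, ← s0]
    refine sum_congr rfl fun k _ => ?_
    rw [Rat.smul_def, map_mul, mul_comm]
    simp
  have s2 := Fintype.linearIndependent_iff.1 hγ _ s1 k₀
  have s3 : ((i k₀ : K) - j k₀) = 0 := by
    have : i k₀ = j k₀ := by exact_mod_cast sub_eq_zero.1 s2
    simp [this]
  have r := hr k₀
  have hz0 := hy k₀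
  have e2 : y k₀ * (δ (n k₀) / n k₀) = algebraMap K Ω ((m + 1 : ℕ) : K) := by
    rw [hm k₀ (IntermediateField.subset_adjoin _ _ ⟨⟨y k₀, hzt⟩, rfl⟩), δ.leibniz_pow, hδ]
    simp only [smul_eq_mul, mul_one, nsmul_eq_mul, map_natCast, Nat.add_sub_cancel]
    field_simp
    ring
  rw [s3, e2] at r
  exact absurd (Nat.cast_eq_zero.1 (rosUniq hK (rosConst _ _) r)) (by omega)

end Desc

theorem sRos (h : SDerExt) : SRos := by
  intro C F ι _ _ _ _ _ γ y a hγ hy H
  have h1 : ∀ k, IsAlgebraic C (y k) := fun k =>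
    (isAlgebraic_algebraMap_iff (algebraMap F (AlgebraicClosure F)).injective).1
      (rosClosed (y := fun k => algebraMap F (AlgebraicClosure F) (y k)) h hγ
        (fun k => (_root_.map_ne_zero _).2 (hy k)) (rosExt H) k)
  refine ⟨h1, ?_⟩
  by_contra ha
  obtain ⟨δ, hδ⟩ := rosDer h ha
  have := H δ
  simp [rosAlg δ (h1 _), hδ] at this

end Pool.Agent.MP_c1891a_nt.G43
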